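import Pool.Agent.Hp21.A2.Stm

/-! Piece CRV: the field theory. -/

set_option autoImplicit false

namespace Pool.Agent.Hp21.A2

open Polynomial IntermediateField

/-- The polynomial `Phi` is the image under the third power of the Frobenius. -/
theorem crv_phi {R : Type*} [CommRing R] [CharP R 2] (Θ : R[X]) (d : ℕ) (hd : Θ.natDegree = d) :
    (∑ k ∈ Finset.range (d + 1), C ((Θ.coeff k) ^ 8) * X ^ k : R[X]) =
      Θ.map (iterateFrobenius R 2 3) := by
  ext n
  rw [finsetSum_coeff, coeff_map, iterateFrobenius_def]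
  simp only [coeff_C_mul, coeff_X_pow, mul_ite, mul_one, mul_zero]
  rw [Finset.sum_ite_eq]
  split_ifs with h
  · norm_num
  · rw [Finset.mem_range, Nat.lt_succ_iff, not_le, ← hd] at h
    rw [coeff_eq_zero_of_natDegree_lt h]
    norm_num

/-- The value at the eighth power. -/
theorem crv_val {F Z : Type*} [Field F] [Field Z] [Algebra F Z] [CharP F 2] (g : F[X]) (θ : Z) :
    aeval (θ ^ 8) (g.map (iterateFrobenius F 2 3)) = (aeval θ g) ^ 8 := by
  have h := map_iterateFrobenius_expand (R := F) 2 g 3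
  have h2 : ((2 : ℕ) ^ 3) = 8 := by norm_num
  rw [h2] at h
  have h3 := congrArg (aeval θ) h
  rw [map_pow, Polynomial.map_expand, expand_aeval] at h3
  exact h3

/-- Elements of a simple extension as values of polynomials with integral coefficients. -/
theorem crv_num {K Z : Type*} [Field K] [Field Z] [Algebra (RatFunc K) Z]
    [FiniteDimensional (RatFunc K) Z] (a z : Z) (hz : z ∈ (RatFunc K)⟮a⟯) :
    ∃ (c : K[X]) (ρ : K[X][X]), c ≠ 0 ∧
      aeval a (ρ.map (algebraMap K[X] (RatFunc K))) =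
        algebraMap (RatFunc K) Z (algebraMap K[X] (RatFunc K) c) * z := by
  have h1 : z ∈ (RatFunc K)⟮a⟯.toSubalgebra := hz
  rw [adjoin_simple_toSubalgebra_of_isAlgebraic (Algebra.IsAlgebraic.isAlgebraic a),
    Algebra.adjoin_singleton_eq_range_aeval] at h1
  obtain ⟨r, hr⟩ := h1
  obtain ⟨b, hb1, hb2⟩ := IsLocalization.integerNormalization_spec (nonZeroDivisors K[X]) r
  refine ⟨b, IsLocalization.integerNormalization (nonZeroDivisors K[X]) r,
    nonZeroDivisors.ne_zero hb1, ?_⟩
  rw [hb2]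
  have h3 : b • r = C (algebraMap K[X] (RatFunc K) b) * r := by
    ext n
    rw [coeff_smul, coeff_C_mul, Algebra.smul_def]
  rw [h3, map_mul, aeval_C]
  congr 1

theorem t_CRV : S_CRV := by
  intro K Z _ _ _ _ _ _ θ Θ d hΘ hmon hdeg
  have : CharP (RatFunc K) 2 := inferInstance
  have : Fact (Nat.Prime 2) := ⟨Nat.prime_two⟩
  set F := RatFunc K with hF
  set φ : K[X] →+* F := algebraMap K[X] F with hφ
  have hinj : Function.Injective φ := IsFractionRing.injective K[X] F
  have hint : IsIntegral F θ := Algebra.IsIntegral.isIntegral θ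
  have hint8 : IsIntegral F (θ ^ 8) := Algebra.IsIntegral.isIntegral _
  -- the polynomial Phi
  have hP1 : Phi Θ d = Θ.map (iterateFrobenius K[X] 2 3) := crv_phi Θ d hdeg
  have hPmon : (Phi Θ d).Monic := by
    rw [hP1]
    exact hmon.map _
  have hcomp : (φ.comp (iterateFrobenius K[X] 2 3)) = (iterateFrobenius F 2 3).comp φ := by
    ext x
    · simp [iterateFrobenius_def]
    · simp [iterateFrobenius_def]
  have hP2 : (Phi Θ d).map φ = (minpoly F θ).map (iterateFrobenius F 2 3) := by
    rw [hP1, ← hΘ, Polynomial.map_map, Polynomial.map_map, hcomp]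
  have hzero : aeval (θ ^ 8) ((Phi Θ d).map φ) = 0 := by
    rw [hP2, crv_val, minpoly.aeval]
    norm_num
  -- the degrees
  have hadj : F⟮θ⟯ = F⟮θ ^ 8⟯ := by
    have h := adjoin_simple_eq_adjoin_pow_expChar_pow_of_isSeparable' (F := F) (E := Z) θ 2 3
    norm_num at h
    exact h
  have hmin : minpoly F (θ ^ 8) = (Phi Θ d).map φ := by
    symm
    refine eq_of_monic_of_dvd_of_natDegree_le (minpoly.monic hint8) (hPmon.map _)
      (minpoly.dvd _ _ hzero) ?_
    have h1 : (minpoly F (θ ^ 8)).natDegree = Module.finrank F F⟮θ ^ 8⟯ :=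
      (adjoin.finrank hint8).symm
    have h2 : (minpoly F θ).natDegree = Module.finrank F F⟮θ⟯ := (adjoin.finrank hint).symm
    rw [hP2, natDegree_map, h1, h2, hadj]
  -- the value of the derivative
  set t : Z := aeval θ (derivative (minpoly F θ)) with ht
  have ht0 : t ≠ 0 :=
    (Algebra.IsSeparable.isSeparable F θ).aeval_derivative_ne_zero (minpoly.aeval _ _)
  have htmem : t ∈ F⟮θ ^ 8⟯ := by
    rw [← hadj, ht]
    have h1 : aeval θ (derivative (minpoly F θ)) ∈ Algebra.adjoin F {θ} := by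
      rw [Algebra.adjoin_singleton_eq_range_aeval]
      exact ⟨_, rfl⟩
    exact algebra_adjoin_le_adjoin F {θ} h1
  obtain ⟨c, ρ, hc, hρ⟩ := crv_num (θ ^ 8) t htmem
  set T : Z := algebraMap F Z (φ c) * t with hT
  have hφc : φ c ≠ 0 := fun h => hc (hinj (by rw [h, map_zero]))
  have hT0 : T ≠ 0 := mul_ne_zero
    (fun h => hφc ((algebraMap F Z).injective (by rw [h, map_zero]))) ht0
  have hTmem : T⁻¹ ∈ F⟮θ ^ 8⟯ :=
    inv_mem (mul_mem (IntermediateField.algebraMap_mem _ _) htmem)
  obtain ⟨e, ρ', he, hρ'⟩ := crv_num (θ ^ 8) T⁻¹ hTmem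
  refine ⟨c, e, ρ, ρ', hc, he, ?_, ?_⟩
  · rw [← Polynomial.map_dvd_map φ hinj hPmon, ← hmin]
    refine minpoly.dvd _ _ ?_
    have hder : (derivative (Phi Θ d)).map φ =
        (derivative (minpoly F θ)).map (iterateFrobenius F 2 3) := by
      rw [← derivative_map, hP2, derivative_map]
    rw [Polynomial.map_sub, Polynomial.map_mul, Polynomial.map_pow, map_C, hder, map_sub, map_mul,
      crv_val, map_pow (aeval (θ ^ 8)), hρ, aeval_C, map_pow φ, map_pow, hT, mul_pow, sub_self]
  · rw [← Polynomial.map_dvd_map φ hinj hPmon, ← hmin]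
    refine minpoly.dvd _ _ ?_
    rw [Polynomial.map_sub, Polynomial.map_mul, map_C, map_sub, map_mul, hρ, hρ', aeval_C]
    have h1 : algebraMap (RatFunc K) Z (algebraMap K[X] (RatFunc K) e) =
      algebraMap F Z (φ e) := rfl
    rw [h1, mul_left_comm, mul_inv_cancel₀ hT0, mul_one, sub_self]

end Pool.Agent.Hp21.A2
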