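import Mathlib

/-!
Statements (NOT results) of the pieces of the project A2 (helper21, problem MP_7f581e_nt):
alternating wreath products and alternating fibre powers with perfect kernel over `F_2(X)`.

Every piece is independent of the others (pieces used by another piece are hypotheses of it). Each
docstring contains a complete proof. Only Mathlib is needed. Write the piece XXX into
`Pool/Agent/Hp21/A2/XXX.lean` with `theorem t_XXX : S_XXX`, namespace `Pool.Agent.Hp21.A2`.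
-/

set_option autoImplicit false

namespace Pool.Agent.Hp21.A2

open Polynomial

/-! ### Polynomials over a commutative ring -/

section defs

variable {A : Type} [CommRing A]

/-- The polynomial `G = X D^8 + (X^B D + 1)^8 + D^8 ∑ ν_a X^(8 a)`. -/
noncomputable def GA (D : A[X]) (B : ℕ) {m : ℕ} (ν : Fin m → A) : A[X] :=
  X * D ^ 8 + (X ^ B * D + 1) ^ 8 + D ^ 8 * ∑ a : Fin m, C (ν a) * X ^ (8 * (a : ℕ))

/-- The polynomial `R = ∑_{k ≤ d} Θ_k^8 G^k (s D^8)^(d-k)`. -/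
noncomputable def RA (Θ : A[X][X]) (D : A[X]) (B d : ℕ) {m : ℕ} (ν : Fin m → A) (s : A) : A[X] :=
  ∑ k ∈ Finset.range (d + 1), (Θ.coeff k) ^ 8 * (GA D B ν) ^ k * (C s * D ^ 8) ^ (d - k)

/-- The polynomial `Φ = ∑_{k ≤ d} Θ_k^8 Y^k` (the outer variable is `Y`). -/
noncomputable def Phi (Θ : A[X][X]) (d : ℕ) : A[X][X] :=
  ∑ k ∈ Finset.range (d + 1), C ((Θ.coeff k) ^ 8) * X ^ k

end defs

/-- A ring `A` with reduction `red : A → N` modulo `2` and multiplicative section `τ` (the Witt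
vectors of `N`). -/
structure W2 (N A : Type) [Field N] [CommRing A] (red : A →+* N) (τ : N → A) : Prop where
  ker : ∀ a, red a = 0 ↔ (2 : A) ∣ a
  unit : ∀ a, red a ≠ 0 → IsUnit a
  two : (2 : A) ≠ 0
  tau : ∀ x, red (τ x) = x
  tau_zero : τ 0 = 0
  tau_one : τ 1 = 1
  tau_mul : ∀ x y, τ (x * y) = τ x * τ y
  hensel : ∀ (f : A[X]) (x : N), f.Monic → (f.map red).eval x = 0 →
    (derivative (f.map red)).eval x ≠ 0 → ∃ a, red a = x ∧ f.eval a = 0
  lift : ∀ σ : N ≃+* N, ∃ σ' : A →+* A, (∀ a, red (σ' a) = σ (red a)) ∧ ∀ x, σ' (τ x) = τ (σ x)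

/-- WITT (80 lines). Proof: `A = WittVector 2 N`, `red = WittVector.constantCoeff`,
`τ = WittVector.teichmuller 2`. `ker`: `WittVector.ker_constantCoeff` (Complete.lean; `N` is
perfect) and `Ideal.mem_span_singleton`; `unit`: `WittVector.isUnit_of_coeff_zero_ne_zero`; `two`:
`WittVector.irreducible`; `hensel`: `WittVector.isAdicCompleteIdealSpanP` and
`IsAdicComplete.henselianRing` (start with `a₀ = τ x`; units modulo the ideal of `2` are units since
`red` is surjective); `lift`: `WittVector.map σ`, `WittVector.map_teichmuller`,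
`WittVector.map_coeff`. The domain instance is in Domain.lean. -/
def S_WITT : Prop :=
  ∀ (N : Type) [Field N] [IsAlgClosed N] [CharP N 2], ∃ (A : Type) (_ : CommRing A)
    (_ : IsDomain A) (red : A →+* N) (τ : N → A), W2 N A red τ

/-- HEN (100 lines): the roots of a polynomial whose reduction has `n` different simple roots.
Proof: `g = C ℓ⁻¹ * f` (`ℓ` the leading coefficient, a unit) is monic; apply `hensel` to it for
every `l`; get `x'`. `x'` is injective, with unit differences. `f = C ℓ * ∏_l (X - C (x' l))`: the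
product of the different `X - C (x' l)` divides `f` (domain, `Finset.prod` of pairwise coprime or
`Polynomial.prod_multiset_X_sub_C_dvd`/ `Multiset.prod_X_sub_C_dvd_iff_le_roots`), both have degree
`n`; or: pass to the fraction field, or: `f - C ℓ * ∏` has degree `< n` and `n` different roots
(`Polynomial.card_roots'`, `Polynomial.eq_of_degree_sub_lt_of_eval_finset_eq`). Then use
`Lagrange.nodal` and `Lagrange.eval_nodal_derivative_eval_node_eq` as at the end of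
`Pool/Agent/Y921/AW/Pts.lean`. Last part (uniqueness of Hensel lifts): `a = σ' (x' l)` is a root of
`f.map σ' = f` with `red a = σ (x l) = x l' = red (x' l')`; `f a = f b = 0` with `red a = red b` and
`f'(b)` a unit implies `a = b`: with the product formula `0 = f(a) = ℓ ∏_j (a - x' j)`, so
`a = x' j` for some `j`, and `red a = x j = x l'` gives `j = l'` by injectivity of `x`. -/
def S_HEN : Prop :=
  ∀ (N A : Type) [Field N] [CommRing A] [IsDomain A] (red : A →+* N) (τ : N → A), W2 N A red τ →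
    ∀ (n : ℕ) (f : A[X]), f.natDegree = n → IsUnit f.leadingCoeff → ∀ x : Fin n → N,
    Function.Injective x → (∀ l, (f.map red).eval (x l) = 0) →
    (∀ l, (derivative (f.map red)).eval (x l) ≠ 0) →
    ∃ x' : Fin n → A, (∀ l, red (x' l) = x l) ∧ (∀ l, f.eval (x' l) = 0) ∧
      (∀ l, (derivative f).eval (x' l) =
        f.leadingCoeff * ∏ j ∈ Finset.univ.erase l, (x' l - x' j)) ∧
      ∀ (σ : N ≃+* N) (σ' : A →+* A), (∀ a, red (σ' a) = σ (red a)) → f.map σ' = f →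
        ∀ l l', σ (x l) = x l' → σ' (x' l) = x' l'

/-- SGNV (70 lines): the discriminant is a square and its root changes by the sign.
Proof: `Δ = (Matrix.vandermonde x).det`. The product over ordered pairs is
`(-1)^(n(n-1)/2) Δ^2` (`Matrix.det_vandermonde`, compare the proof of `t_par` in
`Pool/Agent/Y436/AW/*.lean`), the sign is `1` as `4 ∣ n`; `σ Δ = det (vandermonde (x ∘ π))
= sign π * Δ` by `Matrix.det_permute` (or `Matrix.det_permute'`). -/
def S_SGNV : Prop :=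
  ∀ (A : Type) [CommRing A] (n : ℕ), 4 ∣ n → ∀ x : Fin n → A, ∃ Δ : A,
    ∏ l, ∏ j ∈ Finset.univ.erase l, (x l - x j) = Δ ^ 2 ∧
    ∀ (σ : A →+* A) (π : Equiv.Perm (Fin n)), (∀ l, σ (x l) = x (π l)) →
      σ Δ = ((Equiv.Perm.sign π : ℤˣ) : ℤ) • Δ

/-- FIN8 (50 lines). Proof: only `ker` and `two` of `W2` are used. `(Δ - ω)(Δ + ω) = 8 t`. As
`N` has no zero divisors, `2` divides `Δ - ω` or `Δ + ω`, so both (their difference is `2 ω`):
`Δ - ω = 2 a`, `Δ + ω = 2 (a + ω)`, `4 a (a + ω) = 8 t`, so `a (a + ω) = 2 t` and `2` divides `a` or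
`a + ω`, so `Δ = δ ω + 4 v` with `δ = 1` or `-1`. If `u = -1`, then `-Δ = σ Δ = δ ω + 4 σ v`, so
`2 Δ = 4 (v - σ v)`, `Δ = 2 (v - σ v)`, so `2 ∣ Δ` and then `2 ∣ ω`, a contradiction. -/
def S_FIN8 : Prop :=
  ∀ (N A : Type) [Field N] [CommRing A] [IsDomain A] (red : A →+* N) (τ : N → A), W2 N A red τ →
    ∀ Δ ω t : A, Δ ^ 2 = ω ^ 2 + 8 * t → red ω ≠ 0 → ∀ (σ : A →+* A) (u : ℤˣ),
      σ Δ = (u : ℤ) • Δ → σ ω = ω → u = 1

/-- PROD8 (40 lines). Proof: by induction on a finset `t`, with `S = ∑ ψ`, `P = ∑ ψ^2`: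
there are `e` and `v` with `S^2 = P + 2 e` and `∏ (1 + 2 ψ) = 1 + 2 S + 4 e + 8 v`. Step: add `a`:
`(S + a)^2 = P + a^2 + 2 (e + S a)` and `(1 + 2 S + 4 e + 8 v)(1 + 2 a) = 1 + 2 (S + a) +
4 (e + S a) + 8 (v + e a + 2 v a)`. At the end `S = 8 u`, `P = 8 u'`, so
`4 e = 2 (S^2 - P) = 2 (64 u^2 - 8 u')` is divisible by `8`. -/
def S_PROD8 : Prop :=
  ∀ (A : Type) [CommRing A] (n : ℕ) (ψ : Fin n → A), (∃ u, ∑ l, ψ l = 8 * u) →
    (∃ u, ∑ l, ψ l ^ 2 = 8 * u) → ∃ u, ∏ l, (1 + 2 * ψ l) = 1 + 8 * u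

/-- DER (80 lines): value and derivative modulo `8` of `R` at a point. Proof: `(f^8)' = 8 f^7 f'`,
so `G' = D^8 + 8 (..)`, `(Θ_k^8)' = 8 (..)`, `((s D^8)^j)' = 8 (..)`, so `R' = ∑_k Θ_k^8 k G^(k-1)
D^8 (s D^8)^(d-k) + 8 (..)`. Evaluate at `x`; `G(x) = s D(x)^8 y`:
`(s D^8 y)^(k-1) (s D^8)^(d-k) = (s D^8)^(d-1) y^(k-1)` for `1 ≤ k ≤ d`. (Compare `PP_der`,
`PP_der_eval` in `Pool/Agent/Y921/AW/Pts.lean`.) -/
def S_DER : Prop :=
  ∀ (A : Type) [CommRing A] (Θ : A[X][X]) (D : A[X]) (B d m : ℕ) (ν : Fin m → A) (s x y : A),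
    (GA D B ν).eval x = s * (D.eval x) ^ 8 * y →
    (RA Θ D B d ν s).eval x = (s * (D.eval x) ^ 8) ^ d * evalEval x y (Phi Θ d) ∧
    ∃ u, (derivative (RA Θ D B d ν s)).eval x = (D.eval x) ^ 8 * (s * (D.eval x) ^ 8) ^ (d - 1) *
      evalEval x y (derivative (Phi Θ d)) + 8 * u

/-- LAG (40 lines). Proof: in the fraction field `F` of `A` the `x l` are different (the product is
a unit, so not `0`) and `∑_l T(x l) / ∏_{j ≠ l} (x l - x j)` is the coefficient of `X^(n-1)` of `T`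
(`Lagrange.coeff_eq_sum`, or `Lagrange.leadingCoeff_eq_sum`, Mathlib/LinearAlgebra/Lagrange.lean),
which is `0`. -/
def S_LAG : Prop :=
  ∀ (A : Type) [CommRing A] [IsDomain A] (n : ℕ) (x v : Fin n → A),
    (∀ l, v l * ∏ j ∈ Finset.univ.erase l, (x l - x j) = 1) → ∀ T : A[X],
    T.natDegree + 1 < n → ∑ l, T.eval (x l) * v l = 0

/-- TDEG (60 lines). Proof: `deg G ≤ 8 (B + δ)`, `δ = deg D` (`m ≤ B`, `1 ≤ B`), so the `j`-th
summand has degree at most `L + j 8 (B + δ) + (d-1-j) 8 δ ≤ B + (d-1) 8 (B + δ)`, and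
`B + 1 < 8 (B + δ)` as `1 ≤ B`. Use `natDegree_mul_le`, `natDegree_pow_le`, `natDegree_add_le`,
`natDegree_sum_le_of_forall_le`. (Compare `GG_deg`, `PP_deg` in `Pool/Agent/Y921/AW/Pts.lean`.) -/
def S_TDEG : Prop :=
  ∀ (A : Type) [CommRing A] (d B m L : ℕ) (D : A[X]) (ν : Fin m → A) (s : A) (g : ℕ → A[X]),
    0 < d → 1 ≤ B → L ≤ B → m ≤ B → (∀ j, (g j).natDegree ≤ L) →
    (∑ j ∈ Finset.range d, g j * (GA D B ν) ^ j * (C s * D ^ 8) ^ (d - 1 - j)).natDegree + 1 <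
      d * (8 * (B + D.natDegree))

/-- The degree of `R` (RDEG, 80 lines, same proof as `PP_deg` in `Pool/Agent/Y921/AW/Pts.lean`, with
`p = 8`): over a domain. -/
def S_RDEG : Prop :=
  ∀ (A : Type) [CommRing A] [IsDomain A] (Θ : A[X][X]) (D : A[X]) (B d m : ℕ), D ≠ 0 →
    Θ.Monic → Θ.natDegree = d → 0 < d → 1 ≤ B → m ≤ B → (∀ k, (Θ.coeff k).natDegree < B) →
    ∀ (ν : Fin m → A) (s : A), (RA Θ D B d ν s).natDegree = d * (8 * (B + D.natDegree)) ∧
      (RA Θ D B d ν s).leadingCoeff = D.leadingCoeff ^ (8 * d)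

/-- TR (120 lines): the trace lemma. Prove `theorem t_TR (h1 : S_DER) (h2 : S_LAG)
(h3 : S_TDEG) : S_TR`. Proof: `Φ = Phi Θ d` is monic of degree `d` (its coefficient `d` is
`(Θ.coeff d)^8 = 1`). Let `g = (h * derivative Φ) %ₘ Φ`, of degree `< d`, `L₀` the maximum of `1`
and of the degrees of its coefficients. Put `T = ∑_{j < d} g_j G^j (s D^8)^(d-1-j)`,
`P_l = ∏_{j ≠ l} (x_l - x_j)` (a unit with inverse `v_l`). Then
`T(x_l) = (s D_l^8)^(d-1) g(x_l, y_l) = (s D_l^8)^(d-1) h(x_l, y_l) Υ_l`, `Υ = derivative Φ`, as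
`Φ(x_l, y_l) = 0`, and by DER `ℓ P_l = R'(x_l) = D_l^8 (s D_l^8)^(d-1) Υ_l + 8 u_l`. So
`T(x_l) D_l^8 = h(x_l, y_l) (ℓ P_l - 8 u_l)`; multiply by `w_l v_l`: `T(x_l) v_l =
ℓ h(x_l, y_l) w_l - 8 (..)`. Summing, `ℓ ∑ h(x_l, y_l) w_l = ∑ T(x_l) v_l + 8 (..) = 8 (..)` by LAG
and TDEG, and `ℓ` is a unit. -/
def S_TR : Prop :=
  ∀ (A : Type) [CommRing A] [IsDomain A] (d : ℕ) (Θ : A[X][X]) (D : A[X]) (h : A[X][X]),
    Θ.Monic → Θ.natDegree = d → 0 < d → ∃ L₀ : ℕ, ∀ B m n : ℕ, L₀ ≤ B → m ≤ B →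
    n = d * (8 * (B + D.natDegree)) → ∀ (ν : Fin m → A) (s : A) (x y v w : Fin n → A),
    (∀ l, evalEval (x l) (y l) (Phi Θ d) = 0) →
    (∀ l, (GA D B ν).eval (x l) = s * (D.eval (x l)) ^ 8 * y l) →
    (∀ l, (D.eval (x l)) ^ 8 * w l = 1) →
    (∀ l, v l * ∏ j ∈ Finset.univ.erase l, (x l - x j) = 1) → ∀ ℓ : A, IsUnit ℓ →
    (∀ l, (derivative (RA Θ D B d ν s)).eval (x l) =
      ℓ * ∏ j ∈ Finset.univ.erase l, (x l - x j)) →
    ∃ u, ∑ l, evalEval (x l) (y l) h * w l = 8 * u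

/-- CRV (120 lines): the field theory. Proof. `F = RatFunc K`, `F₁ = F⟮θ⟯`. As `Z/F` is separable,
`F⟮θ⟯ = F⟮θ^8⟯` (`IntermediateField.adjoin_simple_eq_adjoin_pow_expChar_pow_of_isSeparable`, `8 =
2^3`). `Φ = Phi Θ d` mapped to `F[Y]` is `minpoly F (θ^8)`: it is monic of degree
`d = [F⟮θ⟯ : F] = [F⟮θ^8⟯ : F]`, and its value at `θ^8` is `(∑ Θ_k θ^k)^8 = 0` in characteristic
`2`. Put `t = ∑_k k Θ_k θ^(k-1)` (the value at `θ` of the derivative of the minimal polynomial), not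
`0` by separability; `t ∈ F⟮θ^8⟯`, so `t = r(θ^8)` with `r ∈ F[Y]`; clear denominators: `c t =
ρ(θ^8)`, `0 ≠ c ∈ K[X]`, `ρ ∈ K[X][Y]`. Also `(c t)⁻¹ ∈ F⟮θ^8⟯`, so `(c t)⁻¹ e = ρ'(θ^8)`. The value
of `derivative Φ` at `θ^8` is `∑ k Θ_k^8 θ^(8(k-1)) = t^8` (`k^8 = k` in characteristic `2`). So both
polynomials vanish at `θ^8` and are divisible by the minimal polynomial over `F`, hence over `K[X]`
(`Polynomial.map_dvd_map`, `Φ` monic). -/
def S_CRV : Prop :=
  ∀ (K Z : Type) [Field K] [CharP K 2] [Field Z] [Algebra (RatFunc K) Z]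
    [FiniteDimensional (RatFunc K) Z] [IsGalois (RatFunc K) Z] (θ : Z) (Θ : K[X][X]) (d : ℕ),
    Θ.map (algebraMap K[X] (RatFunc K)) = minpoly (RatFunc K) θ → Θ.Monic → Θ.natDegree = d →
    ∃ (c e : K[X]) (ρ ρ' : K[X][X]), c ≠ 0 ∧ e ≠ 0 ∧
      Phi Θ d ∣ C (c ^ 8) * derivative (Phi Θ d) - ρ ^ 8 ∧ Phi Θ d ∣ ρ * ρ' - C e

/-- LFT (70 lines): lifting of polynomials with coefficients in `K`. Proof: the lift has the
coefficients `τ (algebraMap K N _)` (`τ 0 = 0`; `τ` of a nonzero element is not `0` since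
`red (τ x) = x`); sums over the support, e.g. `∑ k ∈ range (natDegree + 1), C (∑ i ∈ range
(natDegree + 1), C (τ _) * X^i) * X^k`; `Polynomial.finset_sum_coeff`. -/
def S_LFT : Prop :=
  ∀ (K N A : Type) [Field K] [Field N] [Algebra K N] [CommRing A] [IsDomain A] (red : A →+* N)
    (τ : N → A), W2 N A red τ → ∀ f : K[X][X], ∃ F : A[X][X],
    F.map (mapRingHom red) = f.map (mapRingHom (algebraMap K N)) ∧
    F.natDegree = f.natDegree ∧ (f.Monic → F.Monic) ∧
    (∀ k, (F.coeff k).natDegree = (f.coeff k).natDegree) ∧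
    ∀ σ : A →+* A, (∀ c : K, σ (τ (algebraMap K N c)) = τ (algebraMap K N c)) →
      F.map (mapRingHom σ) = F

/-- KAP (40 lines). Proof: `P̄ = F̄ Q` over `N`; lift `Q` to `q` (`Polynomial.map_surjective`
twice, `red` is surjective by `tau`); all coefficients of `P - F q` are in the kernel of `red`, so
divisible by `2` (choose the quotients; sum over the support). -/
def S_KAP : Prop :=
  ∀ (N A : Type) [Field N] [CommRing A] [IsDomain A] (red : A →+* N) (τ : N → A), W2 N A red τ →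
    ∀ P F : A[X][X], F.map (mapRingHom red) ∣ P.map (mapRingHom red) →
      ∃ q κ : A[X][X], P = F * q + 2 * κ

end Pool.Agent.Hp21.A2
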